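import Pool.Agent.Lib_MP_49ddc8.Gen
import Pool.Agent.Lib_MP_49ddc8.ExF

/-!
# The birational section conjecture over `k(u)` for curves which dominate a constant curve

`κ` is a field of characteristic zero which has a finite extension `k(u)` with `k` finitely generated over `ℚ` (for instance
`κ = ℚ(u)` or `κ = ℚ(u₁, …, uₙ)`, `n ≥ 1`), `K` is an extension of `κ` of transcendence degree one. Suppose that the field
generated by `K` and `k(u)` contains the function field of a constant curve `y² = f(x)`, where `f ∈ k[X]` is separable of degree
at least three (a curve of genus at least one). Then every section of `G_K → G_κ` is defined by exactly one `κ`-rational place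
of `K`, and every `κ`-rational place of `K` defines a section.
-/

set_option autoImplicit false

open Polynomial

namespace Pool.Agent.Results.MP_49ddc8_ag.ConstantCurves

/-- Let `κ` have the finite extension `k(u)`, `k` finitely generated over `ℚ`, let `K/κ` have transcendence degree one, and let the
field generated by `K` and `k(u)` contain `x` (transcendental over `κ`) and `y` with `y² = f(x)`, `f ∈ k[X]` separable of degree at
least `3`. Then for every continuous section `s` of `G_K → G_κ` there is exactly one `κ`-rational place of `K` which defines `s`,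
and every `κ`-rational place of `K` defines a continuous section. -/
theorem result :
    ∀ (κ : Type) [Field κ] [CharZero κ] (K : Type) [Field K] [Algebra κ K],
      (∃ t : K, Transcendental κ t ∧
        Algebra.IsAlgebraic (IntermediateField.adjoin κ {t}) K) →
      ∀ (k : Type) [Field k] [CharZero k], (⊤ : IntermediateField ℚ k).FG →
      ∀ [Algebra κ (RatFunc k)] [FiniteDimensional κ (RatFunc k)]
        (φ : RatFunc k →ₐ[κ] AlgebraicClosure K) (f : k[X]), f.Separable → 3 ≤ f.natDegree →
      ∀ x ∈ IntermediateField.adjoin K (Set.range φ), ∀ y ∈ IntermediateField.adjoin K (Set.range φ),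
      Transcendental κ x → y ^ 2 = f.eval₂ (φ.toRingHom.comp (algebraMap k (RatFunc k))) x →
      (∀ s : ((algebraicClosure κ (AlgebraicClosure K)) ≃ₐ[κ]
                (algebraicClosure κ (AlgebraicClosure K))) →*
              (AlgebraicClosure K ≃ₐ[K] AlgebraicClosure K),
          Continuous s →
          (∀ (τ : (algebraicClosure κ (AlgebraicClosure K)) ≃ₐ[κ]
                (algebraicClosure κ (AlgebraicClosure K)))
             (x : algebraicClosure κ (AlgebraicClosure K)),
              s τ (x : AlgebraicClosure K) =
                ((τ x : algebraicClosure κ (AlgebraicClosure K)) : AlgebraicClosure K)) →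
          ∃! O : ValuationSubring K,
            ((∀ c : κ, algebraMap κ K c ∈ O) ∧ O ≠ ⊤ ∧
              ∀ x ∈ O, ∃ c : κ, x - algebraMap κ K c = 0 ∨ (x - algebraMap κ K c)⁻¹ ∉ O) ∧
            ∃ W : ValuationSubring (AlgebraicClosure K),
              W.comap (algebraMap K (AlgebraicClosure K)) = O ∧
              ∀ τ, ∀ y : AlgebraicClosure K, (s τ y ∈ W ↔ y ∈ W)) ∧
      (∀ O : ValuationSubring K,
          ((∀ c : κ, algebraMap κ K c ∈ O) ∧ O ≠ ⊤ ∧
            ∀ x ∈ O, ∃ c : κ, x - algebraMap κ K c = 0 ∨ (x - algebraMap κ K c)⁻¹ ∉ O) →
          ∃ s : ((algebraicClosure κ (AlgebraicClosure K)) ≃ₐ[κ]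
                  (algebraicClosure κ (AlgebraicClosure K))) →*
                (AlgebraicClosure K ≃ₐ[K] AlgebraicClosure K),
            Continuous s ∧
            (∀ (τ : (algebraicClosure κ (AlgebraicClosure K)) ≃ₐ[κ]
                  (algebraicClosure κ (AlgebraicClosure K)))
               (x : algebraicClosure κ (AlgebraicClosure K)),
                s τ (x : AlgebraicClosure K) =
                  ((τ x : algebraicClosure κ (AlgebraicClosure K)) : AlgebraicClosure K)) ∧
            ∃ W : ValuationSubring (AlgebraicClosure K),
              W.comap (algebraMap K (AlgebraicClosure K)) = O ∧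
              ∀ τ, ∀ y : AlgebraicClosure K, (s τ y ∈ W ↔ y ∈ W)) := by
  intro κ _ _ K _ _ htd k _ _ hk _ _ φ f hf hdeg x hx y hy htr hxy
  exact ⟨fun s hs hres => BSC.bsc_fg κ K htd k hk φ f hf hdeg x y hx hy htr hxy s hs hres,
    fun O hO => BSC.exists_section' κ K O hO⟩

end Pool.Agent.Results.MP_49ddc8_ag.ConstantCurves
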