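import Pool.Agent.Lib_MP_49ddc8.Fc5
import Pool.Agent.Lib_MP_49ddc8.ExF

/-!
# The birational section conjecture over `k(u)` for curves with four fixed branch points

`κ` is a field of characteristic zero which has a finite extension `k(u)` with `k` finitely generated over `ℚ` (for instance
`κ = ℚ(u)` or `κ = ℚ(u₁, …, uₙ)`, `n ≥ 1`), `K` is an extension of `κ` of transcendence degree one. Suppose that the field
generated by `K` and `k(u)` contains `x`, `y` with `y² = f(x) G(u, x)`, where `f ∈ k[X]` is separable and `G` is a polynomial over
`k[u]`: the roots of `f` are branch points which do not move with `u`, the roots of `G` may move. A collision is a pair `(a, e)` with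
`f(e) = 0` and `G(a, e) = 0`. Suppose that for all collisions with `a` outside a finite set `Z` the root `e` is not in `k(a)`. Let `N`
be the number of fixed branch points: the degree of `f`, or this degree plus one (counting the point at infinity) if `f G` has odd
degree in `X` and its leading coefficient has its roots in `Z`. If `N ≥ 4` and `Z` has at most `N - 2` elements, then every section
of `G_K → G_κ` is defined by exactly one `κ`-rational place of `K`, and every `κ`-rational place of `K` defines a section.

The proof: `x`, `y` are elements of the fixed field of the section. The product of `x - e` over three or more of the roots `e` is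
shown to be a constant times a square, after a base change `k₁(v)/k(u)`; then the theorem for constant curves applies.
-/

set_option autoImplicit false

open Polynomial

namespace Pool.Agent.Results.MP_49ddc8_ag.FixedBranchPoints

/-- Let `κ` have the finite extension `k(u)`, `k` finitely generated over `ℚ`, let `K/κ` have transcendence degree one, and let the
field generated by `K` and `k(u)` contain `x` (transcendental over `κ`) and `y` with `y² = f(x) G(u, x)`, `f ∈ k[X]` separable,
`G ∈ k[u][X]`. Let `Z` be a finite set of elements of the algebraic closure of `k`, such that `e ∉ k(a)` if `f(e) = 0`, `G(a, e) = 0`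
and `a ∉ Z`. Let `N = deg f`, or `N = deg f + 1` if `deg f + deg G` is odd and `Z` contains the roots of the leading coefficient of
`G`. Suppose that `N ≥ 4` and `|Z| ≤ N - 2`. Then for every continuous section `s` of `G_K → G_κ` there is exactly one `κ`-rational
place of `K` which defines `s`, and every `κ`-rational place of `K` defines a continuous section. -/
theorem result :
    ∀ (κ : Type) [Field κ] [CharZero κ] (K : Type) [Field K] [Algebra κ K],
      (∃ t : K, Transcendental κ t ∧
        Algebra.IsAlgebraic (IntermediateField.adjoin κ {t}) K) →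
      ∀ (k : Type) [Field k] [CharZero k], (⊤ : IntermediateField ℚ k).FG →
      ∀ [Algebra κ (RatFunc k)] [FiniteDimensional κ (RatFunc k)]
        (φ : RatFunc k →ₐ[κ] AlgebraicClosure K) (f : k[X]) (G : k[X][X]), f.Separable →
      ∀ (Z : Finset (AlgebraicClosure k)) (N : ℕ), 4 ≤ N → Z.card + 2 ≤ N →
      (N = f.natDegree ∨ (N = f.natDegree + 1 ∧ Odd (f.natDegree + G.natDegree) ∧
        ∀ a : AlgebraicClosure k, aeval a G.leadingCoeff = 0 → a ∈ Z)) →
      (∀ a e : AlgebraicClosure k, a ∉ Z → aeval e f = 0 →
        G.eval₂ (aeval a : k[X] →ₐ[k] AlgebraicClosure k).toRingHom e = 0 → e ∉ IntermediateField.adjoin k {a}) →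
      ∀ x ∈ IntermediateField.adjoin K (Set.range φ), ∀ y ∈ IntermediateField.adjoin K (Set.range φ),
      Transcendental κ x →
      y ^ 2 = f.eval₂ (φ.toRingHom.comp (algebraMap k (RatFunc k))) x *
        G.eval₂ (φ.toRingHom.comp (algebraMap k[X] (RatFunc k))) x →
      (∀ s : ((algebraicClosure κ (AlgebraicClosure K)) ≃ₐ[κ]
                (algebraicClosure κ (AlgebraicClosure K))) →*
              (AlgebraicClosure K ≃ₐ[K] AlgebraicClosure K),
          Continuous s →
          (∀ (τ : (algebraicClosure κ (AlgebraicClosure K)) ≃ₐ[κ]
                (algebraicClosure κ (AlgebraicClosure K)))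
             (x : algebraicClosure κ (AlgebraicClosure K)),
              s τ (x : AlgebraicClosure K) =
                ((τ x : algebraicClosure κ (AlgebraicClosure K)) : AlgebraicClosure K)) →
          ∃! O : ValuationSubring K,
            ((∀ c : κ, algebraMap κ K c ∈ O) ∧ O ≠ ⊤ ∧
              ∀ x ∈ O, ∃ c : κ, x - algebraMap κ K c = 0 ∨ (x - algebraMap κ K c)⁻¹ ∉ O) ∧
            ∃ W : ValuationSubring (AlgebraicClosure K),
              W.comap (algebraMap K (AlgebraicClosure K)) = O ∧
              ∀ τ, ∀ y : AlgebraicClosure K, (s τ y ∈ W ↔ y ∈ W)) ∧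
      (∀ O : ValuationSubring K,
          ((∀ c : κ, algebraMap κ K c ∈ O) ∧ O ≠ ⊤ ∧
            ∀ x ∈ O, ∃ c : κ, x - algebraMap κ K c = 0 ∨ (x - algebraMap κ K c)⁻¹ ∉ O) →
          ∃ s : ((algebraicClosure κ (AlgebraicClosure K)) ≃ₐ[κ]
                  (algebraicClosure κ (AlgebraicClosure K))) →*
                (AlgebraicClosure K ≃ₐ[K] AlgebraicClosure K),
            Continuous s ∧
            (∀ (τ : (algebraicClosure κ (AlgebraicClosure K)) ≃ₐ[κ]
                  (algebraicClosure κ (AlgebraicClosure K)))
               (x : algebraicClosure κ (AlgebraicClosure K)),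
                s τ (x : AlgebraicClosure K) =
                  ((τ x : algebraicClosure κ (AlgebraicClosure K)) : AlgebraicClosure K)) ∧
            ∃ W : ValuationSubring (AlgebraicClosure K),
              W.comap (algebraMap K (AlgebraicClosure K)) = O ∧
              ∀ τ, ∀ y : AlgebraicClosure K, (s τ y ∈ W ↔ y ∈ W)) := by
  intro κ _ _ K _ _ htd k _ _ hk _ _ φ f G hf Z N hN hZ hNf hcol x hx y hy htr hxy
  refine ⟨fun s hs hres => BSC.bsc_fixZ κ K htd k hk φ f hf G Z ?_ hcol x y hx hy htr hxy s hs hres,
    fun O hO => BSC.exists_section' κ K O hO⟩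
  rcases hNf with h | ⟨h, hodd, hl⟩
  · exact Or.inl ⟨by omega, by omega⟩
  · exact Or.inr ⟨by omega, by omega, hodd, hl⟩

end Pool.Agent.Results.MP_49ddc8_ag.FixedBranchPoints
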