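import Pool.Agent.Lib_MP_49ddc8.Tw10
import Pool.Agent.Lib_MP_49ddc8.ExF

/-!
# The birational section conjecture over `k(u)` for curves `y² = f(x) G(u, x)`, `f` a constant cubic

`κ` is a field of characteristic zero which has a finite extension `k(u)` with `k` finitely generated over `ℚ`, `K` is an extension
of `κ` of transcendence degree one. Suppose that the field generated by `K` and `k(u)` contains the function field of a curve
`y² = f(x) G(u, x)`, where `f ∈ k[X]` is a separable cubic and `G ∈ k[u][X]` has even degree in `X`. The curve need not be constant;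
it has the three fixed branch points `e`, `f(e) = 0`. Suppose that a root `e` of `f` does not lie in `k(a)` if `G(a, e) = 0`, and that,
if the leading coefficient `l(u)` of `G` has a root at all, no root of `f` lies in the field generated over `k` by the roots of `l`.
Then every section of `G_K → G_κ` is defined by exactly one `κ`-rational place of `K`, and every `κ`-rational place of `K` defines a
section. For `G = D(u)` these are the quadratic twists `D(u) y² = f(x)` of elliptic curves over `k`.
-/

set_option autoImplicit false

open Polynomial

namespace Pool.Agent.Results.MP_49ddc8_ag.FixedCubic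

/-- Let `κ` have the finite extension `k(u)`, `k` finitely generated over `ℚ`, let `K/κ` have transcendence degree one, and let the
field generated by `K` and `k(u)` contain `x` (transcendental over `κ`) and `y` with `y² = f(x) G(u, x)`, `f ∈ k[X]` a separable
cubic, `G ∈ k[u][X]` of even degree in `X` with leading coefficient `l`. Assume `e ∉ k(a)` if `f(e) = 0 = G(a, e)`, and, if `l` has a
root, `e ∉ k(roots of l)` if `f(e) = 0`. Then for every continuous section `s` of `G_K → G_κ` there is exactly one `κ`-rational place
of `K` which defines `s`, and every `κ`-rational place of `K` defines a continuous section. -/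
theorem result :
    ∀ (κ : Type) [Field κ] [CharZero κ] (K : Type) [Field K] [Algebra κ K],
      (∃ t : K, Transcendental κ t ∧
        Algebra.IsAlgebraic (IntermediateField.adjoin κ {t}) K) →
      ∀ (k : Type) [Field k] [CharZero k], (⊤ : IntermediateField ℚ k).FG →
      ∀ [Algebra κ (RatFunc k)] [FiniteDimensional κ (RatFunc k)]
        (φ : RatFunc k →ₐ[κ] AlgebraicClosure K) (f : k[X]), f.Separable → f.natDegree = 3 →
      ∀ G : k[X][X], Even G.natDegree →
      (∀ a e : AlgebraicClosure k, aeval e f = 0 →
        G.eval₂ (aeval a : k[X] →ₐ[k] AlgebraicClosure k).toRingHom e = 0 → e ∉ IntermediateField.adjoin k {a}) →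
      (∀ a e : AlgebraicClosure k, aeval a G.leadingCoeff = 0 → aeval e f = 0 →
        e ∉ IntermediateField.adjoin k (G.leadingCoeff.rootSet (AlgebraicClosure k))) →
      ∀ x ∈ IntermediateField.adjoin K (Set.range φ), ∀ y ∈ IntermediateField.adjoin K (Set.range φ),
      Transcendental κ x →
      y ^ 2 = f.eval₂ (φ.toRingHom.comp (algebraMap k (RatFunc k))) x *
        G.eval₂ (φ.toRingHom.comp (algebraMap k[X] (RatFunc k))) x →
      (∀ s : ((algebraicClosure κ (AlgebraicClosure K)) ≃ₐ[κ]
                (algebraicClosure κ (AlgebraicClosure K))) →*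
              (AlgebraicClosure K ≃ₐ[K] AlgebraicClosure K),
          Continuous s →
          (∀ (τ : (algebraicClosure κ (AlgebraicClosure K)) ≃ₐ[κ]
                (algebraicClosure κ (AlgebraicClosure K)))
             (x : algebraicClosure κ (AlgebraicClosure K)),
              s τ (x : AlgebraicClosure K) =
                ((τ x : algebraicClosure κ (AlgebraicClosure K)) : AlgebraicClosure K)) →
          ∃! O : ValuationSubring K,
            ((∀ c : κ, algebraMap κ K c ∈ O) ∧ O ≠ ⊤ ∧
              ∀ x ∈ O, ∃ c : κ, x - algebraMap κ K c = 0 ∨ (x - algebraMap κ K c)⁻¹ ∉ O) ∧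
            ∃ W : ValuationSubring (AlgebraicClosure K),
              W.comap (algebraMap K (AlgebraicClosure K)) = O ∧
              ∀ τ, ∀ y : AlgebraicClosure K, (s τ y ∈ W ↔ y ∈ W)) ∧
      (∀ O : ValuationSubring K,
          ((∀ c : κ, algebraMap κ K c ∈ O) ∧ O ≠ ⊤ ∧
            ∀ x ∈ O, ∃ c : κ, x - algebraMap κ K c = 0 ∨ (x - algebraMap κ K c)⁻¹ ∉ O) →
          ∃ s : ((algebraicClosure κ (AlgebraicClosure K)) ≃ₐ[κ]
                  (algebraicClosure κ (AlgebraicClosure K))) →*
                (AlgebraicClosure K ≃ₐ[K] AlgebraicClosure K),
            Continuous s ∧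
            (∀ (τ : (algebraicClosure κ (AlgebraicClosure K)) ≃ₐ[κ]
                  (algebraicClosure κ (AlgebraicClosure K)))
               (x : algebraicClosure κ (AlgebraicClosure K)),
                s τ (x : AlgebraicClosure K) =
                  ((τ x : algebraicClosure κ (AlgebraicClosure K)) : AlgebraicClosure K)) ∧
            ∃ W : ValuationSubring (AlgebraicClosure K),
              W.comap (algebraMap K (AlgebraicClosure K)) = O ∧
              ∀ τ, ∀ y : AlgebraicClosure K, (s τ y ∈ W ↔ y ∈ W)) := by
  intro κ _ _ K _ _ htd k _ _ hk _ _ φ f hf hdeg G hG hcol hl x hx y hy htr hxy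
  exact ⟨fun s hs hres => BSC.bsc_cub κ K htd k hk φ f hf hdeg G hG hcol hl x y hx hy htr hxy s hs hres,
    fun O hO => BSC.exists_section' κ K O hO⟩

end Pool.Agent.Results.MP_49ddc8_ag.FixedCubic
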